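import Pool.Agent.P.MP_9d1108_nt.Sc.Fin

set_option autoImplicit false

open Filter Topology

namespace Pool.Agent.Results.MP_9d1108_nt.SharpConstant

/-- The best constant in the failure of property (P) for the totient function is the mean value
`c` of `n / (n + φ n)`. The regular function `F x = x * exp (-(log x) ^ (3 / 5))` is admissible
and every window `(x, x + h)` with `h ≥ F x` contains `n + φ n` for `(c + o(1)) h` integers `n`,
while for every `G → ∞` infinitely many windows `(x, x + G x)` contain `n + φ n` for at least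
`(c - ε) G x` integers `n`. -/
theorem result : ∃ c : ℝ, 1 / 2 ≤ c ∧ c ≤ 1 ∧
    Tendsto (fun N : ℕ => (∑ n ∈ Finset.Icc 1 N, (n : ℝ) / ((n : ℝ) + (Nat.totient n : ℝ))) / N)
      atTop (𝓝 c) ∧
    Tendsto (fun x : ℕ => (x : ℝ) * Real.exp (-Real.log x ^ (3 / 5 : ℝ))) atTop atTop ∧
    Tendsto (fun n : ℕ => (n : ℝ) * Real.exp (-Real.log n ^ (3 / 5 : ℝ)) / (Nat.totient n : ℝ))
      atTop (𝓝 0) ∧
    (∀ ε : ℝ, 0 < ε → ∀ᶠ x : ℕ in atTop, ∀ h : ℝ,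
      (x : ℝ) * Real.exp (-Real.log x ^ (3 / 5 : ℝ)) ≤ h →
        |((Set.ncard {n : ℕ | (x : ℝ) < (n : ℝ) + (Nat.totient n : ℝ) ∧
          (n : ℝ) + (Nat.totient n : ℝ) < (x : ℝ) + h} : ℕ) : ℝ) - c * h| ≤ ε * h) ∧
    ∀ G : ℕ → ℝ, Tendsto G atTop atTop → ∀ ε : ℝ, 0 < ε → ∃ᶠ x : ℕ in atTop,
      (c - ε) * G x ≤ ((Set.ncard {n : ℕ | (x : ℝ) < (n : ℝ) + (Nat.totient n : ℝ) ∧
        (n : ℝ) + (Nat.totient n : ℝ) < (x : ℝ) + G x} : ℕ) : ℝ) := by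
  obtain ⟨c, c0, c1, hm, hc⟩ := P.MP_9d1108_nt.Sc.dens
  exact ⟨c, c0, c1, hm, P.MP_9d1108_nt.Sw.tendsto_F,
    P.MP_9d1108_nt.Sw.tendsto_div fun _ => le_rfl, fun _ hε => P.MP_9d1108_nt.Sc.opn c1 hc hε,
    fun _ hG _ hε => P.MP_9d1108_nt.Sc.lower c1 hc hG hε⟩

end Pool.Agent.Results.MP_9d1108_nt.SharpConstant
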