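import Pool.Agent.P.MP_9d1108_nt.Sw.Fin

set_option autoImplicit false

open Filter Topology

namespace Pool.Agent.Results.MP_9d1108_nt.SmallWitness

/-- Let `f ≥ φ` be multiplicative with `f p = p - 1` at all primes or `f p = p + 1` at all primes
(for example `f = φ` or `f = σ`). The regular function `F x = x * exp (-(log x) ^ (3 / 5))`
witnesses that `f` fails property (P): `F → ∞`, `F n / f n → 0` along all integers, and for all
large `x` every window `(x, x + h)` with `h ≥ F x` (in particular `h = F x`) contains `n + f n`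
for at most `C h` integers `n`. -/
theorem result (f : ℕ → ℕ) (hmul : ∀ a b : ℕ, a.Coprime b → f (a * b) = f a * f b)
    (hprime : (∀ p : ℕ, p.Prime → f p + 1 = p) ∨ (∀ p : ℕ, p.Prime → f p = p + 1))
    (hge : ∀ n : ℕ, Nat.totient n ≤ f n) :
    Tendsto (fun x : ℕ => (x : ℝ) * Real.exp (-Real.log x ^ (3 / 5 : ℝ))) atTop atTop ∧
    Tendsto (fun n : ℕ => (n : ℝ) * Real.exp (-Real.log n ^ (3 / 5 : ℝ)) / (f n : ℝ))
      atTop (𝓝 0) ∧
    ∃ C : ℝ, ∀ᶠ x : ℕ in atTop, ∀ h : ℝ, (x : ℝ) * Real.exp (-Real.log x ^ (3 / 5 : ℝ)) ≤ h →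
      ((Set.ncard {n : ℕ | (x : ℝ) < (n : ℝ) + (f n : ℝ) ∧
        (n : ℝ) + (f n : ℝ) < (x : ℝ) + h} : ℕ) : ℝ) ≤ C * h := by
  obtain ⟨C, hC⟩ := P.MP_9d1108_nt.Sw.windows
  obtain ⟨e, he⟩ := P.MP_9d1108_nt.Sw.mul_of hmul hprime hge
  refine ⟨P.MP_9d1108_nt.Sw.tendsto_F, P.MP_9d1108_nt.Sw.tendsto_div hge, C, ?_⟩
  filter_upwards [hC, eventually_ge_atTop (f 0)] with x hx h0 h hh using hx f e h he h0 hh

/-- The totient function satisfies the hypotheses. -/
theorem totient_case : (∀ a b : ℕ, a.Coprime b → (a * b).totient = a.totient * b.totient) ∧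
    (∀ p : ℕ, p.Prime → p.totient + 1 = p) :=
  ⟨fun _ _ h => Nat.totient_mul h, fun _ hp => by
    rw [Nat.totient_prime hp, Nat.sub_add_cancel hp.pos]⟩

/-- The sum of divisors function satisfies the hypotheses. -/
theorem sigma_case : (∀ a b : ℕ, a.Coprime b → ArithmeticFunction.sigma 1 (a * b) =
      ArithmeticFunction.sigma 1 a * ArithmeticFunction.sigma 1 b) ∧
    (∀ p : ℕ, p.Prime → ArithmeticFunction.sigma 1 p = p + 1) ∧
    ∀ n : ℕ, Nat.totient n ≤ ArithmeticFunction.sigma 1 n := by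
  refine ⟨fun _ _ h => ArithmeticFunction.isMultiplicative_sigma.2 h, fun p hp => ?_, fun n => ?_⟩
  · rw [ArithmeticFunction.sigma_one_apply, hp.sum_divisors]
  · rcases Nat.eq_zero_or_pos n with rfl | hn
    · simp
    · rw [ArithmeticFunction.sigma_one_apply]
      exact (Nat.totient_le n).trans (Finset.single_le_sum (f := fun d => d)
        (fun _ _ => Nat.zero_le _) (Nat.mem_divisors_self n hn.ne'))

end Pool.Agent.Results.MP_9d1108_nt.SmallWitness
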